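import Pool.Agent.Y386.IR.Rat
import Pool.Agent.Y177.IR.WFAM
import Pool.Agent.Y275.IR.ISO
import Pool.Agent.Y195.IR.UBC
import Pool.Agent.Y550.IR.INT
import Pool.Agent.Y255.IR.FAM2
import Pool.Agent.Y87.IR.PROD2
import Pool.Agent.Y975.IR.CLQa
import Pool.Agent.Y41.IR.UB2
import Pool.Agent.Y907.IR.Res2
import Pool.Agent.Y585.IR.LB2
import Pool.Agent.Y79.IR.POLY2
import Pool.Agent.Y540.IR.ALPHA
import Pool.Agent.Y528.IR.ORAC
import Pool.Agent.Y153.IR.Walk
import Pool.Agent.Y286.IR.HOM
import Pool.Agent.Y151.IR.YES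
import Pool.Agent.Y891.IR.FIB
import Pool.Agent.Y761.IR.COL
import Pool.Agent.Y312.IR.NUM
import Pool.Agent.Y774.IR.THR
import Pool.Agent.Y675.IR.Tri

/-!
# Bounded imperfection ratio cannot be recognised, for any threshold above one

For EVERY real number `t > 1`, a polynomial-time algorithm which decides whether a graph (given by
its adjacency matrix) has imperfection ratio at most `t` exists only if `P = NP`; and for every
rational `t > 1` the problem is NP-hard under polynomial-time many-one reductions.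

Idea: let `C` be the cycle of length `2k+1` with `(2k+1)/(2k) < t`. For the Cartesian product of `C`
with the graph `S` obtained from `H` by replacing each edge with a path of length `2k-1`, the
imperfection ratio is `(2k+1)/(2k)` if `H` is `(2k+1)`-colourable and exceeds it by a factor
`1 + 1/(kN-1)`, `N` the number of fibres, otherwise. The lexicographic product with the circular
clique `K_{a/b}`, `2b < a < 3b`, multiplies the imperfection ratio by exactly `a/(2b)`; with `b`
linear in `N` this moves the gap across `t`. The numerator `a`, which depends on `t`, is found by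
asking the assumed algorithm about graphs of known imperfection ratio. Large `t` are reduced to small
ones by products with the 5-cycle.
-/

namespace Pool.Agent.Results.MP_b9c7f5_lc.EveryThresholdAboveOne

open Pool.Agent.NPC Pool.Agent.H692R2 Pool.Agent.Y386.IR

/-- For every real `t > 1`, deciding `imp G ≤ t` is possible in polynomial time only if `P = NP`,
and for every rational `t > 1` it is NP-hard. -/
theorem result :
    (∀ t : ℝ, 1 < t → GraphPolyDecidable (fun G : FinGraph => imp G.graph ≤ t) → PEqNP) ∧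
    (∀ t : ℚ, 1 < t → NPHardP (fun G : FinGraph => imp G.graph ≤ (t : ℝ))) := by
  have hISO : S_ISO := Y275.IR.t_ISO
  have hUBC : S_UBC := Y195.IR.t_UBC
  have hINT : S_INT := Y550.IR.t_INT
  have hWFAM : S_WFAM := Y177.IR.t_WFAM
  have hUB2 : S_UB2 := Y41.IR.t_UB2 Y255.IR.t_FAM2 (Y87.IR.t_PROD2 hWFAM) Y975.IR.t_CLQa
  have hLB2 : S_LB2 := Y585.IR.t_LB2 (Y907.IR.t_RES2 hWFAM hINT)
  have hWALK : S_WALK := Y153.IR.t_WALK
  have hHOM : S_HOM := Y286.IR.t_HOM hWALK
  have hYES : S_YES := Y151.IR.t_YES
  have hFIB : S_FIB := Y891.IR.t_FIB hINT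
  have hCOL : S_COL := Y761.IR.t_COL hWALK
  have hTRI : S_TRI := Y675.IR.t_TRI
  have hALPHA : S_ALPHA := Y540.IR.t_ALPHA
  have hPOLY : S_POLY2 := Y79.IR.t_POLY2
  exact ⟨fun t ht => main_real hISO hUBC hUB2 hLB2 hHOM hYES hFIB hCOL hTRI hALPHA hPOLY
      Y312.IR.t_NUM Y774.IR.t_THR Y528.IR.t_ORAC ht,
    fun t ht => main_rat hISO hUBC hUB2 hLB2 hHOM hYES hFIB hCOL hTRI hALPHA hPOLY
      Y774.IR.t_THR ht⟩

end Pool.Agent.Results.MP_b9c7f5_lc.EveryThresholdAboveOne
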